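import Mathlib
import Pool.Agent.Q210.PR.Mix
import Pool.Agent.Q210.PR.Fill

/-!
# MP_a9102c_pr: a piece can always be prepended to obtain Brownian motion
-/

open Filter Topology Set MeasureTheory ProbabilityTheory
open scoped NNReal ENNReal
open Pool.Agent.Q210.PR

namespace Pool.Agent.Results.MP_a9102c_pr.Prepend

noncomputable section

/-- The process obtained by putting the piece `(T, Y)` in front of `X`. -/
def prepend {Ω : Type} (T : Ω → ℝ≥0) (Y : ℝ≥0 → Ω → ℝ) (X : Ω → Path) : ℝ≥0 → Ω → ℝ :=
  fun t ω => if t ≤ T ω then Y t ω else Y (T ω) ω + X ω (t - T ω)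

/-- Let `W` be the Wiener measure on the path space `C([0,∞), ℝ)` (Borel sigma-field of the topology
of locally uniform convergence) and let `μ` be a probability measure on it, mutually absolutely
continuous with `W` (the law of a continuous process whose law is equivalent to Brownian motion).
Then there are a probability space carrying a continuous process `X` with law `μ` and a random piece
`(T, Y)`, `T ≥ 0` a finite random time and `Y` a continuous process with `Y_0 = 0`, such that the
process obtained by putting the piece in front of `X` is a Brownian motion. -/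
theorem result (W : Measure Path) (hW : IsWiener W) (μ : Measure Path) [IsProbabilityMeasure μ]
    (h1 : μ ≪ W) (_h2 : W ≪ μ) :
    ∃ (Ω : Type) (_ : MeasurableSpace Ω) (P : Measure Ω) (X : Ω → Path) (T : Ω → ℝ≥0)
      (Y : ℝ≥0 → Ω → ℝ), IsProbabilityMeasure P ∧ Measurable X ∧ P.map X = μ ∧ Measurable T ∧
        (∀ t, Measurable (Y t)) ∧ (∀ ω, Continuous fun t => Y t ω) ∧ (∀ ω, Y 0 ω = 0) ∧
        IsBrownianReal (prepend T Y X) P ∧ ∀ ω, X ω 0 = 0 := by
  have hWp : IsProbabilityMeasure W := hW.isGaussianProcess.isProbabilityMeasure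
  obtain ⟨q, hq, hq1, hq2⟩ := fill (W := W) (θ := sh) (mp_sh hW)
    (fun H hH R hR => mixing hW hH hR) h1
  have hinj : ∀ n : ℕ, Measurable fun w : Path => ((n, w) : ℕ × Path) := fun n => by fun_prop
  set P : Measure (ℕ × Path) := Measure.sum fun n => (W.withDensity (q n)).map fun w => (n, w)
    with hP
  have hX : Measurable fun z : ℕ × Path => sh z.1 z.2 :=
    measurable_from_prod_countable_right fun n => measurable_sh n
  -- the second marginal
  have hsnd : P.map Prod.snd = W := by
    ext S hS
    rw [Measure.map_apply measurable_snd hS, hP, Measure.sum_apply _ (measurable_snd hS)]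
    have e1 : ∀ n, ((W.withDensity (q n)).map fun w => ((n, w) : ℕ × Path)) (Prod.snd ⁻¹' S) =
        ∫⁻ w in S, q n w ∂W := by
      intro n
      rw [Measure.map_apply (hinj n) (measurable_snd hS)]
      show (W.withDensity (q n)) S = _
      rw [withDensity_apply _ hS]
    rw [tsum_congr e1, ← lintegral_tsum fun n => (hq n).aemeasurable]
    have h3 : ∀ᵐ w ∂W.restrict S, ∑' n, q n w = 1 := ae_restrict_of_ae hq1
    rw [lintegral_congr_ae h3]
    simp
  have hPp : IsProbabilityMeasure P := by
    have h3 : P univ = (P.map Prod.snd) univ := by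
      rw [Measure.map_apply measurable_snd MeasurableSet.univ, preimage_univ]
    refine ⟨?_⟩
    rw [h3, hsnd, measure_univ]
  have hXlaw : P.map (fun z : ℕ × Path => sh z.1 z.2) = μ := by
    rw [← hq2]
    ext S hS
    rw [Measure.map_apply hX hS, hP, Measure.sum_apply _ (hX hS), Measure.sum_apply _ hS]
    refine tsum_congr fun n => ?_
    rw [Measure.map_apply (hinj n) (hX hS), Measure.map_apply (measurable_sh n) hS]
    rfl
  refine ⟨ℕ × Path, inferInstance, P, fun z => sh z.1 z.2, fun z => (z.1 : ℝ≥0),
    fun t z => z.2 t - z.2 0, hPp, hX, hXlaw, ?_, ?_, ?_, ?_, ?_, ?_⟩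
  · exact (measurable_from_nat (f := fun n : ℕ => (n : ℝ≥0))).comp measurable_fst
  · exact fun t => ((measurable_eval t).comp measurable_snd).sub
      ((measurable_eval 0).comp measurable_snd)
  · intro z
    show Continuous fun t => z.2 t - z.2 0
    fun_prop
  · exact fun z => sub_self _
  · have hZ : prepend (fun z : ℕ × Path => (z.1 : ℝ≥0)) (fun t z => z.2 t - z.2 0)
        (fun z => sh z.1 z.2) = fun (t : ℝ≥0) (z : ℕ × Path) => z.2 (0 + t) - z.2 0 := by
      funext t z
      unfold prepend
      rw [zero_add]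
      split_ifs with h
      · rfl
      · show z.2 (z.1 : ℝ≥0) - z.2 0 + (z.2 ((z.1 : ℝ≥0) + (t - (z.1 : ℝ≥0))) - z.2 (z.1 : ℝ≥0)) = _
        rw [add_tsub_cancel_of_le (not_le.mp h).le]
        ring
    rw [hZ]
    have hB := hW.shift 0
    have hlaw : HasLaw (Prod.snd : ℕ × Path → Path) W P := ⟨measurable_snd.aemeasurable, hsnd⟩
    refine ⟨⟨fun I => (hB.hasLaw I).comp hlaw⟩, ae_of_all _ fun z => ?_⟩
    show Continuous fun t => z.2 (0 + t) - z.2 0
    fun_prop
  · intro z
    show z.2 ((z.1 : ℝ≥0) + 0) - z.2 (z.1 : ℝ≥0) = 0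
    rw [add_zero, sub_self]

end

end Pool.Agent.Results.MP_a9102c_pr.Prepend
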